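import Mathlib
import Pool.Agent.H568R2.Defs
import Pool.Agent.H592R3.Defs
import Pool.Agent.H72.Clq.Main
import Pool.Agent.H72.Clq.Dnf

/-!
No circuits of small depth with `n ^ o(k)` gates approximate the clique number within any constant
factor, not even on average.

For every `δ > 0` there is a constant `C` such that for all `k ≥ C` and all `n ≥ (C d k) ^ (C d)`
the following holds for randomised, non-uniform circuits of depth `d` on graphs with `n` vertices:
to tell the graphs with a `k`-clique from the graphs all of whose cliques have at most `δ k`
vertices they need more than `n ^ (k / C)` gates. Exhaustive search has depth two and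
`n choose k + 1` gates. There is one constant `C` for all `d`, so the bound holds for all depths up
to a constant times `log n / (log k + log log n)`.

Proof: a random constraint satisfaction problem with `m` variables, `k ≤ m ≤ k + 11`, values in
`Fin (T ^ 2)` and `m` random constraints of arity `303` that allow a fraction `T ^ (-3) / 2` of the
values, against the same problem with a planted solution. Small circuits do not tell them apart
(`csp_first` of the starting folder `Pool/Agent/H592R7`, by helper592 and others), and typically no
assignment satisfies more than three quarters of the constraints of the first (`gap_prob`,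
`gap_arith` of `Pool/Agent/H592R6`). New here: `m` conjunctions of `t` constraints are chosen such
that each set of at most three quarters of the constraints contains at most `δ m / 2` of them
(`Samp`); the vertices of the graph are the local assignments of these conjunctions, and consistent
satisfying ones are adjacent (`Red`); each adjacency bit is a conjunction of bits of the problem,
which costs one level of AND gates (`Pool/Agent/H72/Gap/AndComp`); choice of the parameters (`Par`,
`Main`); randomised circuits (`RandGen`); exhaustive search (`Dnf`).
-/

namespace Pool.Agent.Results.MP_678664_lc.GapSmallDepth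

open DomAC0 SmallDepth Pool.Agent.H72.Clq

open Classical in
/-- For `δ > 0` there is `C` with the following property. Let `d ≥ 1`, `k ≥ C` and
`n ≥ (C d k) ^ (C d)`. (1) There are two probability distributions on graphs with `n` vertices.
The graphs in the support of `ν₁` have a `k`-clique. With probability at least `1 - n ^ (-k / C)` with
respect to `ν₀` all cliques have at most `δ k` vertices. The acceptance probabilities of every
circuit with depth at most `d` and at most `n ^ (k / C)` gates under the two distributions differ by
at most `n ^ (-1 / C)`. (2) If a randomised circuit with depth at most `d` and at most `S` gates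
accepts each graph with a `k`-clique and rejects each graph all of whose cliques have at most `δ k`
vertices, with probability at least two thirds, then `n ^ (k / C) < S`. (3) For all `n` and `k` a
circuit with depth at most two and `n choose k + 1` gates tells exactly whether there is a
`k`-clique. -/
theorem result :
    (∀ δ : ℝ, 0 < δ → ∃ C : ℕ, 1 ≤ C ∧
      ∀ d k n : ℕ, 1 ≤ d → C ≤ k → (C * d * k) ^ (C * d) ≤ n →
        (∃ ν₀ ν₁ : SimpleGraph (Fin n) → ℝ,
          ((∀ G, 0 ≤ ν₀ G) ∧ ∑ G, ν₀ G = 1) ∧ ((∀ G, 0 ≤ ν₁ G) ∧ ∑ G, ν₁ G = 1) ∧
          (∀ G, ν₁ G ≠ 0 → ¬ G.CliqueFree k) ∧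
          (∑ G, ν₀ G * (if CliquesLe (δ * k) G then 0 else 1)) ≤ (n : ℝ) ^ (-((k : ℝ) / C)) ∧
          ∀ K : Circuit (Pairs n), K.depth ≤ d → (K.size : ℝ) ≤ (n : ℝ) ^ ((k : ℝ) / C) →
            |(∑ G, ν₀ G * (if K.eval (adjBits G) = true then 1 else 0)) -
              ∑ G, ν₁ G * (if K.eval (adjBits G) = true then 1 else 0)| ≤
                (n : ℝ) ^ (-(1 / (C : ℝ)))) ∧
        (∀ (R : RandCircuit (Pairs n)) (S : ℕ), R.Bounded d S →
          (∀ G : SimpleGraph (Fin n), ¬ G.CliqueFree k → R.Correct (adjBits G) True) →
          (∀ G : SimpleGraph (Fin n), CliquesLe (δ * k) G → R.Correct (adjBits G) False) →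
          (n : ℝ) ^ ((k : ℝ) / C) < S)) ∧
    (∀ n k : ℕ, ∃ K : Circuit (Pairs n), K.depth ≤ 2 ∧ K.size = n.choose k + 1 ∧
      ∀ G : SimpleGraph (Fin n), K.eval (adjBits G) = true ↔ ¬ G.CliqueFree k) :=
  ⟨fun δ hδ => gap_clique δ hδ, fun n k => clique_upper n k⟩

end Pool.Agent.Results.MP_678664_lc.GapSmallDepth
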